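import Pool.Agent.Q260.OE.All
import Pool.Agent.Q260.OE.Fin6

set_option autoImplicit false

/-!
# Simplicity of the zeros and the best Nyman-Beurling-Báez-Duarte approximations

`err a x = χ(x) - ∑ a_θ {θ/x}`, a finite sum over dilations `λ ≤ θ ≤ 1`, `χ` the indicator function of `(0, 1]`.  Asymptotically
optimal approximations exist if and only if the Riemann hypothesis holds.  All zeros with ordinate in a window of
frequencies are simple if and only if there the error is the error of the prime number theorem divided by `log (1/λ)`, in mean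
square, up to a relatively small error; all zeros are simple if and only if this holds without the restriction to a window, if and only if
the error is uniformly distributed on the logarithmic scale; one zero is simple if and only if the transform of the error has
the profile `(1 - e^{-iv}) / (iv)` there.
-/

open Complex MeasureTheory Filter Topology Set

namespace Pool.Agent.Results.MP_6bc78b_nt.SimplicityFromApproximations

/-- The point `1/2 + i t`. -/
noncomputable def pt (t : ℝ) : ℂ := 1 / 2 + t * I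

/-- The multiplicity of a zero. -/
noncomputable def mult (s : ℂ) : ℕ := analyticOrderNatAt riemannZeta s

/-- The real zeros of Hardy's function: the ordinates of the zeros of zeta on the critical line (without multiplicity). -/
abbrev Ordinate : Type := {g : ℝ // riemannZeta (pt g) = 0}

/-- The sum of `f(m) / |ρ|²` over the distinct zeros `ρ = 1/2 + i γ` with `α < γ < β`, `m` the multiplicity. -/
noncomputable def zsumIn (α β : ℝ) (f : ℕ → ℝ) : ℝ :=
  ∑' g : Ordinate, if α < (g : ℝ) ∧ (g : ℝ) < β then f (mult (pt g)) / (1 / 4 + (g : ℝ) ^ 2) else 0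

/-- All zeros on the critical line are simple. -/
def AllSimple : Prop := ∀ g : Ordinate, mult (pt g) = 1

/-- The error `χ(x) - ∑ a_θ {θ/x}` of a finite linear combination. -/
noncomputable def err (a : ℝ →₀ ℝ) (x : ℝ) : ℝ := (if x ≤ 1 then 1 else 0) - a.sum fun θ c => c * Int.fract (θ / x)

/-- Its square mean. -/
noncomputable def sq (a : ℝ →₀ ℝ) : ℝ := ∫ x in Ioi (0 : ℝ), err a x ^ 2

/-- The dilations are among `1, 1/2, ..., 1/N`. -/
def Natural (N : ℕ) (a : ℝ →₀ ℝ) : Prop := ∀ θ ∈ a.support, ∃ n : ℕ, 1 ≤ n ∧ n ≤ N ∧ θ = 1 / (n : ℝ)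

/-- The best approximation with the dilations `1, 1/2, ..., 1/N`. -/
def Best (N : ℕ) (a : ℝ →₀ ℝ) : Prop := Natural N a ∧ ∀ b : ℝ →₀ ℝ, Natural N b → sq a ≤ sq b

/-- Asymptotically optimal: dilations in `[λ_j, 1]`, `λ_j → 0`, and `sq (a j) log (1/λ_j) → ∑ m² / |ρ|²`. -/
def Optimal (lam : ℕ → ℝ) (a : ℕ → (ℝ →₀ ℝ)) : Prop :=
  Tendsto lam atTop (𝓝[>] 0) ∧ (∀ᶠ j in atTop, ∀ θ ∈ (a j).support, lam j ≤ θ ∧ θ ≤ 1) ∧
    Tendsto (fun j => sq (a j) * Real.log (1 / lam j)) atTop (𝓝 (∑' g : Ordinate, (mult (pt g) : ℝ) ^ 2 / (1 / 4 + (g : ℝ) ^ 2)))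

/-- The error of the prime number theorem. -/
noncomputable def primeErr (y : ℝ) : ℝ := y - Chebyshev.psi y

/-- `log (1/λ)` times the squared distance of the error to the prime error divided by `log (1/λ)`, on `λ < x ≤ 1`. -/
noncomputable def gap (lam : ℝ) (a : ℝ →₀ ℝ) : ℝ :=
  Real.log (1 / lam) * ∫ x in Ioc lam 1, (err a x - primeErr (1 / x) / Real.log (1 / lam)) ^ 2

/-- The same in the frequencies `[α, β]` (Plancherel). -/
noncomputable def gapIn (lam : ℝ) (a : ℝ →₀ ℝ) (α β : ℝ) : ℝ :=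
  Real.log (1 / lam) * (1 / (2 * Real.pi) * ∫ t in α..β, ‖∫ x in Ioc lam 1,
    ((err a x - primeErr (1 / x) / Real.log (1 / lam) : ℝ) : ℂ) * (x : ℂ) ^ (pt t - 1)‖ ^ 2)

/-- The share of the error on `x > λ^u`. -/
noncomputable def share (lam : ℝ) (a : ℝ →₀ ℝ) (u : ℝ) : ℝ := (∫ x in Ioi (lam ^ u), err a x ^ 2) / sq a

/-- The Mellin transform of the error at `s = 1/2 + i t`, multiplied by `s`: `1 + ζ(s) ∑ a_θ θ^s`. -/
noncomputable def trans (a : ℝ →₀ ℝ) (t : ℝ) : ℂ :=
  1 + riemannZeta (pt t) * a.sum fun θ c => (c : ℂ) * (θ : ℂ) ^ pt t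

/-- `log (1/λ)` times the squared error in the frequencies `[α, β]` (Plancherel). -/
noncomputable def mass (lam : ℝ) (a : ℝ →₀ ℝ) (α β : ℝ) : ℝ :=
  Real.log (1 / lam) * (1 / (2 * Real.pi) * ∫ t in α..β, ‖trans a t‖ ^ 2 / (1 / 4 + t ^ 2))

/-- The profile at a simple zero. -/
noncomputable def simpleProfile (v : ℝ) : ℂ := ∫ u in (0 : ℝ)..1, cexp (-(u * v * I))

open Pool.Agent.Q260.OE in
theorem simpleProfile_eq : simpleProfile = FF 1 := by
  funext v
  unfold simpleProfile FF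
  refine intervalIntegral.integral_congr fun u _ => ?_
  show _ = (((pm 1).eval u : ℝ) : ℂ) * cexp (-(u * v * I))
  rw [pm_one]
  simp

open Pool.Agent.Q260.OE in
/-- **Simplicity of the zeros, seen by the best approximations.** -/
theorem result :
    (∀ (lam : ℕ → ℝ) (a : ℕ → (ℝ →₀ ℝ)), Optimal lam a → RiemannHypothesis ∧
      -- the zeros in a window
      (∀ α β : ℝ, α < β → riemannZeta (pt α) ≠ 0 → riemannZeta (pt β) ≠ 0 →
        Tendsto (fun j => mass (lam j) (a j) α β) atTop (𝓝 (zsumIn α β fun m => (m : ℝ) ^ 2)) ∧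
        Tendsto (fun j => gapIn (lam j) (a j) α β) atTop (𝓝 (zsumIn α β fun m => 2 * m * ((m : ℝ) - 1))) ∧
        List.TFAE [∀ g : Ordinate, α < (g : ℝ) → (g : ℝ) < β → mult (pt g) = 1,
          Tendsto (fun j => gapIn (lam j) (a j) α β) atTop (𝓝 0),
          ∀ ε : ℝ, 0 < ε → ∃ᶠ j in atTop, gapIn (lam j) (a j) α β < ε]) ∧
      -- one zero
      (∀ g : Ordinate, mult (pt g) = 1 ↔ ∀ R : ℝ, 0 < R → Tendsto (fun j =>
        ∫ v in (-R)..R, ‖trans (a j) (g + v / Real.log (1 / lam j)) - simpleProfile v‖ ^ 2) atTop (𝓝 0)) ∧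
      -- all zeros
      List.TFAE [AllSimple,
        Tendsto (fun j => gap (lam j) (a j)) atTop (𝓝 0),
        ∀ ε : ℝ, 0 < ε → ∃ᶠ j in atTop, gap (lam j) (a j) < ε,
        ∀ u : ℝ, 0 ≤ u → u ≤ 1 → Tendsto (fun j => share (lam j) (a j) u) atTop (𝓝 u),
        ∃ u : ℝ, 0 < u ∧ u < 1 ∧ ∀ ε : ℝ, 0 < ε → ∃ᶠ j in atTop, share (lam j) (a j) u < u + ε]) ∧
    -- the best approximations with the dilations `1, 1/2, ..., 1/N`
    (∀ N : ℕ, ∃! a : ℝ →₀ ℝ, Best N a) ∧
    ∀ a : ℕ → (ℝ →₀ ℝ), (∀ N, Best N (a N)) →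
      (RiemannHypothesis ↔ Optimal (fun N => 1 / (N : ℝ)) a) ∧
      List.TFAE [RiemannHypothesis ∧ AllSimple,
        Tendsto (fun N : ℕ => gap (1 / (N : ℝ)) (a N)) atTop (𝓝 0),
        ∀ ε : ℝ, 0 < ε → ∃ᶠ N : ℕ in atTop, gap (1 / (N : ℝ)) (a N) < ε,
        ∀ u : ℝ, 0 ≤ u → u ≤ 1 → Tendsto (fun N : ℕ => share (1 / (N : ℝ)) (a N) u) atTop (𝓝 u),
        ∃ u : ℝ, 0 < u ∧ u < 1 ∧ ∀ ε : ℝ, 0 < ε → ∃ᶠ N : ℕ in atTop, share (1 / (N : ℝ)) (a N) u < u + ε] := by
  refine ⟨fun lam a ho => ?_, exists_bestR nt' bst, fun a hb => ⟨⟨fun hRH => best_optR nt' hb hRH up low sum2, fun h => ?_⟩,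
    tfae2S nt' xw cor1 pos leg nr1 nr2 up low sum2 hb⟩⟩
  · have hopt : OptR lam a := ho
    have hRH := hopt.good.rh Pool.Agent.Q286.BD.nrhR
    refine ⟨hRH, fun α β hαβ hα hβ => ⟨?_, gapW_lim phs leg hRH hopt hαβ hα hβ,
      tfae_window phs leg pos sum2 hRH hopt hαβ hα hβ⟩, fun g => ?_, tfae_opt xw cor1 pos leg sum2 hRH hopt⟩
    · refine Tendsto.congr' ?_ (frq hRH _ _ (famR hopt) α β hαβ hα hβ)
      filter_upwards [afix_ev hopt] with j h3
      rw [h3]
      rfl
    · rw [simpleProfile_eq]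
      exact tfae_zero pro ffb hRH hopt g.2
  · have hopt : OptR (fun N : ℕ => 1 / (N : ℝ)) a := h
    exact hopt.good.rh Pool.Agent.Q286.BD.nrhR

end Pool.Agent.Results.MP_6bc78b_nt.SimplicityFromApproximations
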